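import Mathlib

namespace Pool.Agent.H.MP_bb72f8_ag

open MvPolynomial

lemma der_mem {A : Type*} [CommRing A] [Algebra ℂ A] (D : Derivation ℂ A A) (I : Ideal A) (k : ℕ) :
    ∀ f ∈ I ^ (k + 1), D f ∈ I ^ k := by
  induction k with
  | zero => intro f _; simp
  | succ k ih =>
    intro f hf
    rw [pow_succ] at hf
    refine Submodule.mul_induction_on hf (fun a ha b hb => ?_) fun a b ha hb => ?_
    · rw [Derivation.leibniz, smul_eq_mul, smul_eq_mul]
      refine Ideal.add_mem _ (Ideal.mul_mem_right _ _ ha) ?_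
      rw [mul_comm, pow_succ]
      exact Ideal.mul_mem_mul (ih a ha) hb
    · rw [map_add]; exact Ideal.add_mem _ ha hb

lemma iter_mem {A : Type*} [CommRing A] [Algebra ℂ A] (D : Derivation ℂ A A) (I : Ideal A)
    (u k : ℕ) : ∀ f ∈ I ^ (k + u), D^[u] f ∈ I ^ k := by
  induction u with
  | zero => intro f hf; simpa using hf
  | succ u ih =>
    intro f hf
    rw [Function.iterate_succ_apply]
    exact ih _ (der_mem D I _ f hf)

lemma iter_mono (i : Fin 2) (u : ℕ) (s : Fin 2 →₀ ℕ) (c : ℂ) :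
    (pderiv i)^[u] (monomial s c) =
      monomial (s - Finsupp.single i u) (c * ((s i).descFactorial u : ℕ)) := by
  induction u with
  | zero => simp
  | succ u ih =>
    rw [Function.iterate_succ_apply', ih, pderiv_monomial, Finsupp.single_add, tsub_tsub,
      Nat.descFactorial_succ]
    congr 1
    simp
    ring

lemma iter_sum {ι : Type*} (i : Fin 2) (u : ℕ) (t : Finset ι) (g : ι → MvPolynomial (Fin 2) ℂ) :
    (pderiv i)^[u] (∑ k ∈ t, g k) = ∑ k ∈ t, (pderiv i)^[u] (g k) := by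
  induction u with
  | zero => simp
  | succ u ih => simp only [Function.iterate_succ_apply', ih, map_sum]

def ea : Fin 15 → ℕ := ![0, 0, 0, 0, 0, 1, 1, 1, 1, 2, 2, 2, 3, 3, 4]
def eb : Fin 15 → ℕ := ![0, 1, 2, 3, 4, 0, 1, 2, 3, 0, 1, 2, 0, 1, 0]
def pt : Fin 15 → Fin 6 := ![0, 1, 2, 3, 4, 4, 4, 4, 4, 4, 5, 5, 5, 5, 5]
def du : Fin 15 → ℕ := ![0, 0, 0, 0, 0, 0, 0, 1, 1, 2, 0, 0, 0, 1, 1]
def dv : Fin 15 → ℕ := ![0, 0, 0, 0, 0, 1, 2, 0, 1, 0, 0, 1, 2, 0, 1]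
def mm : Fin 6 → ℕ := ![1, 1, 1, 1, 3, 3]

noncomputable def ex (k : Fin 15) : Fin 2 →₀ ℕ := Finsupp.single 0 (ea k) + Finsupp.single 1 (eb k)

lemma ex0 (k : Fin 15) : ex k 0 = ea k := by simp [ex]
lemma ex1 (k : Fin 15) : ex k 1 = eb k := by simp [ex]

lemma expand {f : MvPolynomial (Fin 2) ℂ} (h : f.totalDegree ≤ 4) :
    f = ∑ k, monomial (ex k) (coeff (ex k) f) := by
  have inj : Function.Injective ex := by
    intro k l e
    have a : ea k = ea l := by rw [← ex0, ← ex0, e]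
    have b : eb k = eb l := by rw [← ex1, ← ex1, e]
    revert k l
    have : ∀ k l, ea k = ea l → eb k = eb l → k = l := by decide +kernel
    exact fun k l _ => this k l
  rw [← Finset.sum_image (s := Finset.univ) (g := ex) (f := fun s => monomial s (coeff s f))
    (fun a _ b _ e => inj e)]
  conv_lhs => rw [f.as_sum]
  refine Finset.sum_subset (fun s hs => ?_) fun s _ hs => by simp [notMem_support_iff.1 hs]
  have d := (le_totalDegree hs).trans h
  rw [Finsupp.sum_fintype _ _ (fun _ => rfl), Fin.sum_univ_two] at d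
  have : ∀ a < 5, ∀ b < 5, a + b ≤ 4 → ∃ k, ea k = a ∧ eb k = b := by decide +kernel
  obtain ⟨k, k0, k1⟩ := this (s 0) (by omega) (s 1) (by omega) d
  refine Finset.mem_image.2 ⟨k, Finset.mem_univ _, ?_⟩
  ext i
  fin_cases i
  · exact (ex0 k).trans k0
  · exact (ex1 k).trans k1

def M {R : Type*} [CommRing R] (p : Fin 6 × Fin 2 → R) : Matrix (Fin 15) (Fin 15) R :=
  fun r k => (((eb k).descFactorial (dv r) * (ea k).descFactorial (du r) : ℕ) : R) *
    p (pt r, 0) ^ (ea k - du r) * p (pt r, 1) ^ (eb k - dv r)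

lemma M_map {R S : Type*} [CommRing R] [CommRing S] (φ : R →+* S) (p : Fin 6 × Fin 2 → R) :
    φ (M p).det = (M (fun i => φ (p i))).det := by
  rw [RingHom.map_det]
  congr 1
  ext r k
  simp [M]

def p0 (i : Fin 6 × Fin 2) : ℤ := ![![-1, -1], ![0, -1], ![0, 1], ![1, -1], ![0, 0], ![1, 0]] i.1 i.2

def B : Matrix (Fin 15) (Fin 15) ℤ := Matrix.of
  ![![0, 0, 0, 0, 2, 0, 0, 0, 0, 0, 0, 0, 0, 0, 0], ![0, 0, 0, 0, 0, 2, 0, 0, 0, 0, 0, 0, 0, 0, 0],
    ![0, 0, 0, 0, 0, 0, 1, 0, 0, 0, 0, 0, 0, 0, 0], ![0, -1, 1, 0, 0, -2, 0, 0, 0, 0, 0, 0, 0, 0, 0],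
    ![0, 1, 1, 0, -2, 0, -1, 0, 0, 0, 0, 0, 0, 0, 0], ![0, 0, 0, 0, 0, 0, 0, 2, 0, 0, 0, 0, 0, 0, 0],
    ![0, 0, 0, 0, 0, 0, 0, 0, 2, 0, 0, 0, 0, 0, 0],
    ![-1, 2, 0, -1, 6, 6, -1, 4, 4, 2, -6, -6, 1, 2, 2],
    ![0, 2, 0, -2, -2, 2, -1, 0, 0, 0, 2, -2, 1, 0, 0], ![0, 0, 0, 0, 0, 0, 0, 0, 0, 1, 0, 0, 0, 0, 0],
    ![0, 0, 0, 0, 0, -6, 0, 0, -4, 0, 0, 6, 0, 0, -2],
    ![1, -2, 0, 1, -6, -6, 0, -4, -4, -2, 6, 6, 0, -2, -2],
    ![0, 0, 0, 0, -8, 0, 0, -6, 0, -2, 8, 0, 0, -2, 0], ![0, 0, 0, 0, 0, 4, 0, 0, 2, 0, 0, -4, 0, 0, 2],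
    ![0, 0, 0, 0, 6, 0, 0, 4, 0, 1, -6, 0, 0, 2, 0]]

lemma BM : B * M p0 = Matrix.diagonal fun _ => 2 := by
  ext i j
  revert i j
  decide +kernel

lemma det0 : (M p0).det ≠ 0 := by
  intro h
  have := congrArg Matrix.det BM
  rw [Matrix.det_mul, h, Matrix.det_diagonal] at this
  simp at this

lemma H_ne : (M (X : Fin 6 × Fin 2 → MvPolynomial (Fin 6 × Fin 2) ℂ)).det ≠ 0 := by
  intro h
  have a := M_map (eval fun i => ((p0 i : ℤ) : ℂ)) (X : Fin 6 × Fin 2 → MvPolynomial _ ℂ)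
  have b := M_map (Int.castRingHom ℂ) p0
  simp only [h, map_zero, eval_X] at a
  simp only [eq_intCast] at b
  exact det0 (by exact_mod_cast b.trans a.symm)

lemma empty (p : Fin 6 → Fin 2 → ℂ) (hp : (M fun i => p i.1 i.2).det ≠ 0)
    (f : MvPolynomial (Fin 2) ℂ) (hd : f.totalDegree ≤ 4)
    (hf : ∀ i, f ∈ (Ideal.span {(X 0 : MvPolynomial (Fin 2) ℂ) - C (p i 0),
      (X 1 : MvPolynomial (Fin 2) ℂ) - C (p i 1)}) ^ mm i) : f = 0 := by
  have z : (M fun i => p i.1 i.2).mulVec (fun k => coeff (ex k) f) = 0 := by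
    ext r
    have le : ∀ r, 1 + du r + dv r ≤ mm (pt r) := by decide +kernel
    have m := iter_mem (pderiv 0) _ _ _ _ (iter_mem (pderiv 1) _ _ _ _
      (Ideal.pow_le_pow_right (le r) (hf (pt r))))
    rw [pow_one, Ideal.mem_span_pair] at m
    obtain ⟨a, b, e⟩ := m
    have e' := congrArg (eval (p (pt r))) e
    rw [expand hd] at e'
    simp only [iter_sum, iter_mono, map_sum, eval_monomial] at e'
    simp only [map_add, map_mul, map_sub, eval_X, eval_C, sub_self, mul_zero, add_zero] at e'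
    rw [Pi.zero_apply, e', Matrix.mulVec, dotProduct]
    refine Finset.sum_congr rfl fun k _ => ?_
    rw [Finsupp.prod_fintype _ _ (fun _ => pow_zero _), Fin.prod_univ_two]
    simp [M, ex0, ex1]
    ring
  have := Matrix.eq_zero_of_mulVec_eq_zero hp z
  rw [expand hd]
  exact Finset.sum_eq_zero fun k _ => by rw [congrFun this k]; simp

lemma not_generic (G : MvPolynomial (Fin 6 × Fin 2) ℂ) (hG : G ≠ 0) :
    ∃ p : Fin 6 → Fin 2 → ℂ, eval (fun ij : Fin 6 × Fin 2 => p ij.1 ij.2) G ≠ 0 ∧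
      (M fun i => p i.1 i.2).det ≠ 0 := by
  by_contra h
  push Not at h
  refine mul_ne_zero hG H_ne (MvPolynomial.funext fun x => ?_)
  rw [map_mul, M_map, map_zero]
  simp only [eval_X]
  by_cases k : eval x G = 0
  · simp [k]
  · exact mul_eq_zero_of_right _ (h (fun i j => x (i, j)) k)

lemma line_mem (a b c x y : ℂ) (h : a * x + b * y + c = 0) :
    C a * X 0 + C b * X 1 + C c ∈ Ideal.span {(X 0 : MvPolynomial (Fin 2) ℂ) - C x,
      (X 1 : MvPolynomial (Fin 2) ℂ) - C y} := by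
  refine Ideal.mem_span_pair.2 ⟨C a, C b, ?_⟩
  have : c = -(a * x + b * y) := by linear_combination h
  rw [this]
  simp only [map_neg, map_add, map_mul]
  ring

lemma line_ne (a b c : ℂ) (h : b ≠ 0) :
    (C a * X 0 + C b * X 1 + C c : MvPolynomial (Fin 2) ℂ) ≠ 0 := by
  intro e
  have := congrArg (pderiv 1) e
  simp at this
  exact h this

lemma line_deg (a b c : ℂ) :
    (C a * X 0 + C b * X 1 + C c : MvPolynomial (Fin 2) ℂ).totalDegree ≤ 1 := by
  have k : ∀ (a : ℂ) (i : Fin 2), (C a * X i : MvPolynomial (Fin 2) ℂ).totalDegree ≤ 1 :=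
    fun a i => (totalDegree_mul _ _).trans (by simp)
  exact (totalDegree_add _ _).trans (max_le ((totalDegree_add _ _).trans (max_le (k _ _) (k _ _)))
    (by simp))

end Pool.Agent.H.MP_bb72f8_ag
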